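import Mathlib

/-!
# A compact linearly ordered space without the Blumberg property, in ZFC

Let `S` be a stationary co-stationary subset of `ω₁` and let `T` be the tree of all nonempty closed
bounded subsets of `S` having a maximum, ordered by end-extension. Order `T` lexicographically and
let `K` be the space of all lower sets of the resulting linear order. The tree `T` adds no countable
sequences of ordinals (it is `ω`-distributive, because `S` is stationary) and has no uncountable
branch (because `S` contains no club). The open sets `V t` of all lower sets which separate two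
end-extensions of `t` form a `π`-base of `K` of this tree structure, so `K` is a union of `ℵ₁`
closed nowhere dense sets whereas every real-valued function continuous on a dense set is constant
on a relatively open part of it.
-/

set_option autoImplicit false

open Set

namespace Pool.Agent.Results.MP_184855_gt.CompactLOTS

/-- The Blumberg property: for every real-valued function `f` there is a dense set `D` such that
the restriction of `f` to `D` is continuous. -/
def Blumberg (X : Type) [TopologicalSpace X] : Prop :=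
  ∀ f : X → ℝ, ∃ D : Set X, Dense D ∧ ContinuousOn f D

/-! ### The first uncountable ordinal -/

/-- The first uncountable ordinal, as a well-ordered type. -/
abbrev I : Type := (Cardinal.aleph 1).ord.ToType

theorem countable_Iio (a : I) : (Iio a).Countable := by
  have h : Cardinal.mk (Iio a) < Cardinal.aleph 1 := by
    have := Cardinal.mk_Iio_lt a (by simp)
    simpa using this
  rw [← Cardinal.le_aleph0_iff_set_countable]
  exact Order.lt_succ_iff.1 (h.trans_eq Cardinal.succ_aleph0.symm)

theorem uncountable_I : ¬ (univ : Set I).Countable := by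
  rw [← Cardinal.le_aleph0_iff_set_countable, Cardinal.mk_univ]
  simp only [Cardinal.mk_toType, Cardinal.card_ord, not_le]
  exact Cardinal.aleph0_lt_aleph_one

theorem exists_bound {A : Set I} (hA : A.Countable) : ∃ b, ∀ a ∈ A, a < b := by
  by_contra! h
  refine uncountable_I ((hA.biUnion fun a _ =>
    (countable_Iio a).union (countable_singleton a)).mono fun b _ => ?_)
  obtain ⟨a, ha, hab⟩ := h b
  refine mem_biUnion ha ?_
  rcases hab.lt_or_eq with h | h
  · exact Or.inl h
  · exact Or.inr h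

instance : Nonempty I := by
  obtain ⟨b, _⟩ := exists_bound (countable_empty)
  exact ⟨b⟩

/-- The sequence `f` is strictly increasing with supremum `δ`. -/
def SeqLim (f : ℕ → I) (δ : I) : Prop := StrictMono f ∧ IsLUB (range f) δ

theorem SeqLim.lt {f : ℕ → I} {δ : I} (h : SeqLim f δ) (n : ℕ) : f n < δ :=
  (h.1 (Nat.lt_succ_self n)).trans_le (h.2.1 (mem_range_self _))

theorem SeqLim.exists_lt {f : ℕ → I} {δ : I} (h : SeqLim f δ) {a : I} (ha : a < δ) :
    ∃ n, a < f n := by
  by_contra! h'
  exact absurd (h.2.2 (show a ∈ upperBounds (range f) by rintro _ ⟨n, rfl⟩; exact h' n))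
    (not_le.2 ha)

theorem exists_seqLim (g : I → I) (hg : ∀ a, a < g a) (γ : I) :
    ∃ (f : ℕ → I) (δ : I), γ < δ ∧ SeqLim f δ ∧ ∀ n, g (f n) = f (n + 1) := by
  have hf : StrictMono (fun n : ℕ => g^[n] γ) := by
    refine strictMono_nat_of_lt_succ fun n => ?_
    rw [Function.iterate_succ_apply']
    exact hg _
  have hb : ∃ b, b ∈ upperBounds (range fun n : ℕ => g^[n] γ) := by
    obtain ⟨b, hb⟩ := exists_bound (countable_range fun n : ℕ => g^[n] γ)
    exact ⟨b, fun a ha => (hb a ha).le⟩
  have hl : IsLUB (range fun n : ℕ => g^[n] γ)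
      (WellFounded.min wellFounded_lt (upperBounds (range fun n : ℕ => g^[n] γ)) hb) := by
    refine ⟨WellFounded.min_mem _ _ _, fun b hb' => ?_⟩
    exact not_lt.1 (WellFounded.not_lt_min _ _ hb')
  have hs : SeqLim _ _ := ⟨hf, hl⟩
  refine ⟨_, _, ?_, hs, fun n => (Function.iterate_succ_apply' g n γ).symm⟩
  exact hs.lt 0

/-- Closed unbounded subsets of `ω₁`. -/
def Club (C : Set I) : Prop :=
  (∀ a, ∃ b ∈ C, a < b) ∧ ∀ (f : ℕ → I) (δ : I), SeqLim f δ → (∀ n, f n ∈ C) → δ ∈ C

theorem Club.iInter {C : ℕ → Set I} (hC : ∀ n, Club (C n)) (a : I) :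
    ∃ b, a < b ∧ ∀ n, b ∈ C n := by
  choose next hnext using fun n a => (hC n).1 a
  have hg : ∀ a, ∃ b, ∀ n, next n a < b := by
    intro a
    obtain ⟨b, hb⟩ := exists_bound (countable_range fun n : ℕ => next n a)
    exact ⟨b, fun n => hb _ (mem_range_self n)⟩
  choose g hg using hg
  obtain ⟨f, δ, haδ, hf, hgf⟩ := exists_seqLim g (fun a => (hnext 0 a).2.trans (hg a 0)) a
  refine ⟨δ, haδ, fun n => ?_⟩
  refine (hC n).2 (fun k => next n (f k)) δ ⟨?_, ?_, ?_⟩ fun k => (hnext n _).1
  · refine strictMono_nat_of_lt_succ fun k => ?_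
    have h1 := hg (f k) n
    rw [hgf k] at h1
    exact h1.trans (hnext n _).2
  · rintro _ ⟨k, rfl⟩
    have h1 := hg (f k) n
    rw [hgf k] at h1
    exact (h1.trans (hf.lt _)).le
  · intro b hb
    refine hf.2.2 ?_
    rintro _ ⟨k, rfl⟩
    exact (hnext n (f k)).2.le.trans (hb (mem_range_self k))

theorem exists_bistationary : ∃ S : Set I, (∀ C, Club C → ∃ x ∈ C, x ∈ S) ∧
    (∀ C, Club C → ∃ x ∈ C, x ∉ S) := by
  by_contra! h
  have hr : Nonempty (I ↪ (ℕ → Bool)) := by
    rw [← Cardinal.le_def]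
    simp only [Cardinal.mk_toType, Cardinal.card_ord]
    have : Cardinal.mk (ℕ → Bool) = Cardinal.continuum := by simp
    rw [this]
    exact Cardinal.aleph_one_le_continuum
  obtain ⟨r⟩ := hr
  have key : ∀ n : ℕ, ∃ C, Club C ∧ ∃ b : Bool, ∀ x ∈ C, r x n = b := by
    intro n
    by_cases hS : ∀ C, Club C → ∃ x ∈ C, x ∈ {α : I | r α n = true}
    · obtain ⟨C, hC, hCS⟩ := h _ hS
      exact ⟨C, hC, true, hCS⟩
    · push Not at hS
      obtain ⟨C, hC, hCS⟩ := hS
      refine ⟨C, hC, false, fun x hx => ?_⟩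
      have := hCS x hx
      simpa using this
  choose C hC b hb using key
  obtain ⟨x, -, hx⟩ := Club.iInter hC (Classical.arbitrary I)
  obtain ⟨y, hxy, hy⟩ := Club.iInter hC x
  have : r x = r y := by
    funext n
    rw [hb n x (hx n), hb n y (hy n)]
  exact absurd (r.injective this) hxy.ne

/-! ### The tree -/

variable {S : Set I}

/-- Closed subsets of `S` with a maximum. -/
structure T (S : Set I) : Type where
  /-- The underlying set. -/
  carrier : Set I
  /-- The maximum. -/
  mx : I
  sub : carrier ⊆ S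
  mx_mem : mx ∈ carrier
  le_mx : ∀ x ∈ carrier, x ≤ mx
  closed : ∀ (f : ℕ → I) (δ : I), SeqLim f δ → (∀ n, f n ∈ carrier) → δ ∈ carrier

namespace T

theorem ext' {s t : T S} (h : ∀ x, x ∈ s.carrier ↔ x ∈ t.carrier) : s = t := by
  have h1 : s.carrier = t.carrier := Set.ext h
  have h2 : s.mx = t.mx :=
    le_antisymm (t.le_mx _ ((h _).1 s.mx_mem)) (s.le_mx _ ((h _).2 t.mx_mem))
  cases s
  cases t
  simp only at h1 h2
  subst h1
  subst h2
  rfl

open Classical in
/-- The characteristic function. -/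
noncomputable def chi (t : T S) : Lex (I → Bool) := toLex fun x => decide (x ∈ t.carrier)

theorem chi_inj : Function.Injective (chi : T S → Lex (I → Bool)) := by
  intro s t h
  refine ext' fun x => ?_
  have := congrFun (toLex_inj.1 h) x
  simpa using this

noncomputable instance : LinearOrder (T S) := LinearOrder.lift' chi chi_inj

theorem lt_iff {s t : T S} : s < t ↔
    ∃ α, (∀ β < α, (β ∈ s.carrier ↔ β ∈ t.carrier)) ∧ α ∉ s.carrier ∧ α ∈ t.carrier := by
  have : s < t ↔ chi s < chi t := Iff.rfl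
  rw [this]
  constructor
  · rintro ⟨α, h1, h2⟩
    refine ⟨α, fun β hβ => ?_, ?_⟩
    · have := h1 β hβ
      simpa [chi] using this
    · simpa [chi, Bool.lt_iff] using h2
  · rintro ⟨α, h1, h2, h3⟩
    refine ⟨α, fun β hβ => ?_, ?_⟩
    · simpa [chi] using h1 β hβ
    · simp [chi, Bool.lt_iff, h2, h3]

/-- End-extension. -/
def Ext (t u : T S) : Prop := ∀ β ≤ t.mx, (β ∈ u.carrier ↔ β ∈ t.carrier)

theorem Ext.refl (t : T S) : Ext t t := fun _ _ => Iff.rfl

theorem Ext.mx_le {t u : T S} (h : Ext t u) : t.mx ≤ u.mx :=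
  u.le_mx _ ((h _ le_rfl).2 t.mx_mem)

theorem Ext.trans {t u v : T S} (h : Ext t u) (h' : Ext u v) : Ext t v :=
  fun β hβ => (h' β (hβ.trans h.mx_le)).trans (h β hβ)

theorem Ext.mem {t u : T S} (h : Ext t u) {x : I} (hx : x ∈ t.carrier) : x ∈ u.carrier :=
  (h x (t.le_mx x hx)).2 hx

/-- Adding a new maximum. -/
def add (t : T S) (α : I) (hα : α ∈ S) (h : t.mx < α) : T S where
  carrier := insert α t.carrier
  mx := α
  sub := by
    rintro x (rfl | hx)
    · exact hα
    · exact t.sub hx
  mx_mem := mem_insert _ _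
  le_mx := by
    rintro x (rfl | hx)
    · exact le_rfl
    · exact (t.le_mx x hx).trans h.le
  closed := by
    intro f δ hf hm
    refine Or.inr (t.closed f δ hf fun n => ?_)
    rcases hm n with h1 | h1
    · exfalso
      have h2 : f n < f (n + 1) := hf.1 (Nat.lt_succ_self n)
      rcases hm (n + 1) with h3 | h3
      · rw [h1, h3] at h2
        exact lt_irrefl _ h2
      · rw [h1] at h2
        exact absurd ((h2.trans_le (t.le_mx _ h3)).trans h) (lt_irrefl _)
    · exact h1

theorem ext_add (t : T S) (α : I) (hα : α ∈ S) (h : t.mx < α) : Ext t (t.add α hα h) := by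
  intro β hβ
  constructor
  · rintro (rfl | h')
    · exact absurd (hβ.trans_lt h) (lt_irrefl _)
    · exact h'
  · exact fun h' => Or.inr h'

theorem mx_add (t : T S) (α : I) (hα : α ∈ S) (h : t.mx < α) : (t.add α hα h).mx = α := rfl

/-- The one-point sets. -/
def single (α : I) (hα : α ∈ S) : T S where
  carrier := {α}
  mx := α
  sub := by
    rintro x rfl
    exact hα
  mx_mem := rfl
  le_mx := by
    rintro x rfl
    exact le_rfl
  closed := by
    intro f δ hf hm
    exfalso
    have h2 : f 0 < f 1 := hf.1 (Nat.lt_succ_self 0)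
    rw [hm 0, hm 1] at h2
    exact lt_irrefl _ h2

theorem lt_of_split {s t v w : T S} {α : I} (hs : α ≤ s.mx) (ht : α ≤ t.mx)
    (h : ∀ β < α, (β ∈ s.carrier ↔ β ∈ t.carrier)) (h1 : α ∉ s.carrier) (h2 : α ∈ t.carrier)
    (hv : Ext s v) (hw : Ext t w) : v < w := by
  refine lt_iff.2 ⟨α, fun β hβ => ?_, ?_, ?_⟩
  · rw [hv β (hβ.le.trans hs), hw β (hβ.le.trans ht)]
    exact h β hβ
  · rwa [hv α hs]
  · rwa [hw α ht]

/-- Two elements of the tree are comparable or split. -/
theorem trichotomy (s t : T S) : Ext s t ∨ Ext t s ∨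
    ((∀ v w, Ext s v → Ext t w → v < w) ∨ (∀ v w, Ext s v → Ext t w → w < v)) := by
  by_cases h : Ext s t
  · exact Or.inl h
  · unfold Ext at h
    push Not at h
    have hne : {β : I | β ≤ s.mx ∧ ¬ (β ∈ t.carrier ↔ β ∈ s.carrier)}.Nonempty := by
      obtain ⟨β, hβ, h'⟩ := h
      refine ⟨β, hβ, ?_⟩
      tauto
    obtain ⟨α, ⟨hα, hd⟩, hmin⟩ : ∃ α, (α ≤ s.mx ∧ ¬ (α ∈ t.carrier ↔ α ∈ s.carrier)) ∧
        ∀ β < α, (β ∈ t.carrier ↔ β ∈ s.carrier) := by
      refine ⟨WellFounded.min wellFounded_lt _ hne, WellFounded.min_mem wellFounded_lt _ hne,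
        fun β hβ => ?_⟩
      by_contra hc
      have hle : β ≤ s.mx := hβ.le.trans (WellFounded.min_mem wellFounded_lt _ hne).1
      have hmem : β ∈ {β : I | β ≤ s.mx ∧ ¬ (β ∈ t.carrier ↔ β ∈ s.carrier)} := ⟨hle, hc⟩
      exact WellFounded.not_lt_min wellFounded_lt _ hmem hβ
    by_cases hαt : α ≤ t.mx
    · refine Or.inr (Or.inr ?_)
      by_cases hs : α ∈ s.carrier
      · refine Or.inr fun v w hv hw => ?_
        exact lt_of_split hαt hα hmin (fun ht => hd (iff_of_true ht hs)) hs hw hv
      · refine Or.inl fun v w hv hw => ?_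
        refine lt_of_split hα hαt (fun β hβ => (hmin β hβ).symm) hs ?_ hv hw
        by_contra ht
        exact hd (iff_of_false ht hs)
    · refine Or.inr (Or.inl fun β hβ => ?_)
      exact (hmin β (hβ.trans_lt (not_le.1 hαt))).symm

end T

open T

/-- Stationary sets are unbounded. -/
theorem unbounded (hS : ∀ C, Club C → ∃ x ∈ C, x ∈ S) (a : I) : ∃ b ∈ S, a < b := by
  obtain ⟨x, hx, hxS⟩ := hS {x | a < x} ⟨fun c => by
    obtain ⟨b, hb⟩ := exists_bound ((countable_singleton a).insert c)
    exact ⟨b, hb a (by simp), hb c (by simp)⟩, fun f δ hf h => (h 0).trans (hf.lt 0)⟩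
  exact ⟨x, hxS, hx⟩

theorem lt_add (t : T S) (α : I) (hα : α ∈ S) (h : t.mx < α) : t < t.add α hα h := by
  refine lt_iff.2 ⟨α, fun β hβ => ?_, fun h' => absurd (t.le_mx _ h') (not_le.2 h),
    mem_insert _ _⟩
  constructor
  · exact fun h => Or.inr h
  · rintro (rfl | h)
    · exact absurd hβ (lt_irrefl _)
    · exact h

theorem exists_between (hS : ∀ C, Club C → ∃ x ∈ C, x ∈ S) {s s' : T S} (h : s < s') :
    ∃ u : T S, ∀ w, Ext u w → s < w ∧ w < s' := by
  obtain ⟨α, h1, h2, h3⟩ := lt_iff.1 h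
  obtain ⟨b, hbS, hb⟩ := unbounded hS (max α s.mx)
  have hb1 : s.mx < b := (le_max_right _ _).trans_lt hb
  have hb2 : α < b := (le_max_left _ _).trans_lt hb
  refine ⟨s.add b hbS hb1, fun w hw => ⟨?_, ?_⟩⟩
  · refine lt_iff.2 ⟨b, fun β hβ => ?_, fun h' => absurd (s.le_mx _ h') (not_le.2 hb1), ?_⟩
    · rw [hw β hβ.le]
      constructor
      · exact fun h => Or.inr h
      · rintro (rfl | h)
        · exact absurd hβ (lt_irrefl _)
        · exact h
    · exact (hw b le_rfl).2 (mem_insert _ _)
  · refine lt_iff.2 ⟨α, fun β hβ => ?_, ?_, h3⟩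
    · rw [hw β (hβ.trans hb2).le, ← h1 β hβ]
      constructor
      · rintro (rfl | h)
        · exact absurd (hβ.trans hb2) (lt_irrefl _)
        · exact h
      · exact fun h => Or.inr h
    · rw [hw α hb2.le]
      rintro (rfl | h)
      · exact absurd hb2 (lt_irrefl _)
      · exact h2 h

theorem exists_above (hS : ∀ C, Club C → ∃ x ∈ C, x ∈ S) (s : T S) :
    ∃ u : T S, ∀ w, Ext u w → s < w := by
  obtain ⟨b, hbS, hb⟩ := unbounded hS s.mx
  obtain ⟨u, hu⟩ := exists_between hS (lt_add s b hbS hb)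
  exact ⟨u, fun w hw => (hu w hw).1⟩

theorem exists_below (hS : ∀ C, Club C → ∃ x ∈ C, x ∈ S) (s : T S) :
    ∃ u : T S, ∀ w, Ext u w → w < s := by
  obtain ⟨b, hbS, hb⟩ := unbounded hS s.mx
  have : single b hbS < s := by
    have hne : s.carrier.Nonempty := ⟨_, s.mx_mem⟩
    refine lt_iff.2 ⟨WellFounded.min wellFounded_lt _ hne, fun β hβ => ?_, ?_,
      WellFounded.min_mem wellFounded_lt _ hne⟩
    · have h2 : β ∉ s.carrier := fun h =>
        WellFounded.not_lt_min wellFounded_lt _ h hβ
      refine iff_of_false ?_ h2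
      intro (h3 : β = b)
      have := s.le_mx _ (WellFounded.min_mem wellFounded_lt _ hne)
      have h4 : β < b := (hβ.trans_le this).trans hb
      rw [h3] at h4
      exact lt_irrefl _ h4
    · intro h
      have h1 : WellFounded.min wellFounded_lt _ hne = b := h
      have := s.le_mx _ (WellFounded.min_mem wellFounded_lt _ hne)
      rw [h1] at this
      exact absurd hb (not_lt.2 this)
  obtain ⟨u, hu⟩ := exists_between hS this
  exact ⟨u, fun w hw => (hu w hw).2⟩

/-- The tree is `ω`-distributive. -/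
theorem distributive (hS : ∀ C, Club C → ∃ x ∈ C, x ∈ S) (D : ℕ → T S → Prop)
    (hopen : ∀ n t u, D n t → Ext t u → D n u) (hdense : ∀ n t, ∃ u, Ext t u ∧ D n u)
    (t₀ : T S) : ∃ u, Ext t₀ u ∧ ∀ n, D n u := by
  have hstep : ∀ (n : ℕ) (t : T S) (β : I), ∃ u, Ext t u ∧ D n u ∧ β < u.mx := by
    intro n t β
    obtain ⟨b, hbS, hb⟩ := unbounded hS (max β t.mx)
    have hb1 : t.mx < b := (le_max_right _ _).trans_lt hb
    have hb2 : β < b := (le_max_left _ _).trans_lt hb
    obtain ⟨u, hu, hD⟩ := hdense n (t.add b hbS hb1)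
    exact ⟨u, (t.ext_add b hbS hb1).trans hu, hD, hb2.trans_le hu.mx_le⟩
  choose step hstep1 hstep2 hstep3 using hstep
  let path : List (ℕ × I) → T S := fun l => l.foldr (fun p t => step p.1 t p.2) t₀
  have hpath : ∀ p l, path (p :: l) = step p.1 (path l) p.2 := fun p l => rfl
  -- the bound function
  have hg : ∀ b : I, ∃ c, b < c ∧ ∀ l : List (ℕ × I), (∀ p ∈ l, p.2 < b) → (path l).mx < c := by
    intro b
    have : Countable (Iio b) := (countable_Iio b).to_subtype
    obtain ⟨c, hc⟩ := exists_bound (((countable_range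
      fun l : List (ℕ × Iio b) => (path (l.map fun p => (p.1, (p.2 : I)))).mx)).insert b)
    refine ⟨c, hc b (mem_insert _ _), fun l hl => hc _ (Or.inr ?_)⟩
    refine ⟨l.attach.map fun p => (p.1.1, (⟨p.1.2, hl p.1 p.2⟩ : Iio b)), ?_⟩
    simp only [List.map_map]
    congr 2
    conv_rhs => rw [← List.attach_map_subtype_val l]
    rfl
  choose g hg1 hg2 using hg
  have hfin : ∀ (f : ℕ → I) (δ : I), SeqLim f δ → ∀ l : List (ℕ × I), (∀ p ∈ l, p.2 < δ) →
      ∃ n, ∀ p ∈ l, p.2 < f n := by
    intro f δ hf l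
    induction l with
    | nil => exact fun _ => ⟨0, by simp⟩
    | cons q l ih =>
      intro h
      obtain ⟨n, hn⟩ := ih fun p hp => h p (List.mem_cons_of_mem _ hp)
      obtain ⟨m, hm⟩ := hf.exists_lt (h q List.mem_cons_self)
      refine ⟨max n m, fun p hp => ?_⟩
      rcases List.mem_cons.1 hp with rfl | hp
      · exact hm.trans_le (hf.1.monotone (le_max_right _ _))
      · exact (hn p hp).trans_le (hf.1.monotone (le_max_left _ _))
  have hE : Club {δ : I | (∃ f, SeqLim f δ) ∧
      ∀ l : List (ℕ × I), (∀ p ∈ l, p.2 < δ) → (path l).mx < δ} := by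
    constructor
    · intro a
      obtain ⟨f, δ, haδ, hf, hgf⟩ := exists_seqLim g hg1 a
      refine ⟨δ, ⟨⟨f, hf⟩, fun l hl => ?_⟩, haδ⟩
      obtain ⟨n, hn⟩ := hfin f δ hf l hl
      have := hg2 (f n) l hn
      rw [hgf n] at this
      exact this.trans (hf.lt _)
    · intro f δ hf h
      refine ⟨⟨f, hf⟩, fun l hl => ?_⟩
      obtain ⟨n, hn⟩ := hfin f δ hf l hl
      exact ((h n).2 l hn).trans (hf.lt _)
  obtain ⟨δ, ⟨⟨f, hf⟩, hδ⟩, hδS⟩ := hS _ hE
  -- the branch
  let t : ℕ → T S := fun n => Nat.rec t₀ (fun n u => step n u (f n)) n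
  have ht : ∀ n, t (n + 1) = step n (t n) (f n) := fun n => rfl
  have hlist : ∀ n, ∃ l : List (ℕ × I), (∀ p ∈ l, p.2 < δ) ∧ path l = t n := by
    intro n
    induction n with
    | zero => exact ⟨[], by simp, rfl⟩
    | succ n ih =>
      obtain ⟨l, hl, e⟩ := ih
      refine ⟨(n, f n) :: l, ?_, ?_⟩
      · intro p hp
        rcases List.mem_cons.1 hp with rfl | hp
        · exact hf.lt n
        · exact hl p hp
      · rw [hpath, e, ht]
  have hmx : ∀ n, (t n).mx < δ := by
    intro n
    obtain ⟨l, hl, e⟩ := hlist n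
    rw [← e]
    exact hδ l hl
  have hmono : ∀ m n, m ≤ n → Ext (t m) (t n) := by
    intro m n hmn
    induction hmn with
    | refl => exact Ext.refl _
    | @step k _ ih =>
      refine ih.trans ?_
      rw [Nat.succ_eq_add_one, ht]
      exact hstep1 _ _ _
  have hmem : ∀ m n x, x ∈ (t m).carrier → x ≤ (t n).mx → x ∈ (t n).carrier := by
    intro m n x hx hxn
    rcases le_total m n with h | h
    · exact (hmono m n h).mem hx
    · exact (hmono n m h x hxn).1 hx
  let u : T S :=
    { carrier := insert δ (⋃ n, (t n).carrier)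
      mx := δ
      sub := by
        rintro x (rfl | hx)
        · exact hδS
        · obtain ⟨n, hn⟩ := mem_iUnion.1 hx
          exact (t n).sub hn
      mx_mem := mem_insert _ _
      le_mx := by
        rintro x (rfl | hx)
        · exact le_rfl
        · obtain ⟨n, hn⟩ := mem_iUnion.1 hx
          exact ((t n).le_mx x hn).trans (hmx n).le
      closed := by
        intro h ε hh hm
        have hm' : ∀ k, h k ∈ ⋃ n, (t n).carrier := by
          intro k
          rcases hm k with h1 | h1
          · exfalso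
            have h2 : h k < h (k + 1) := hh.1 (Nat.lt_succ_self k)
            have h3 : h (k + 1) ≤ δ := by
              rcases hm (k + 1) with h4 | h4
              · exact h4.le
              · obtain ⟨n, hn⟩ := mem_iUnion.1 h4
                exact ((t n).le_mx _ hn).trans (hmx n).le
            rw [h1] at h2
            exact absurd (h2.trans_le h3) (lt_irrefl _)
          · exact h1
        have hεδ : ε ≤ δ := by
          refine hh.2.2 ?_
          rintro _ ⟨k, rfl⟩
          obtain ⟨n, hn⟩ := mem_iUnion.1 (hm' k)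
          exact ((t n).le_mx _ hn).trans (hmx n).le
        rcases hεδ.lt_or_eq with h1 | h1
        · right
          obtain ⟨n, hn⟩ := hf.exists_lt h1
          have hn' : f n < (t (n + 1)).mx := by
            rw [ht]
            exact hstep3 _ _ _
          refine mem_iUnion.2 ⟨n + 1, (t (n + 1)).closed h ε hh fun k => ?_⟩
          obtain ⟨m, hm2⟩ := mem_iUnion.1 (hm' k)
          exact hmem m (n + 1) _ hm2 (((hh.lt k).trans hn).trans hn').le
        · exact Or.inl h1 }
  have hu : ∀ n, Ext (t n) u := by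
    intro n β hβ
    constructor
    · rintro (rfl | h)
      · exact absurd (hβ.trans_lt (hmx n)) (lt_irrefl _)
      · obtain ⟨m, hm⟩ := mem_iUnion.1 h
        exact hmem m n β hm hβ
    · exact fun h => Or.inr (mem_iUnion.2 ⟨n, h⟩)
  refine ⟨u, hu 0, fun n => hopen n (t (n + 1)) u ?_ (hu (n + 1))⟩
  rw [ht]
  exact hstep2 _ _ _

/-- The tree has no uncountable branch. -/
theorem bounded (hS : ∀ C, Club C → ∃ x ∈ C, x ∉ S) (B : Set (T S))
    (hB : ∀ s ∈ B, ∀ t ∈ B, Ext s t ∨ Ext t s) : ∃ a : I, ∀ t ∈ B, t.mx < a := by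
  by_contra! h
  obtain ⟨x, hx, hxS⟩ := hS (⋃ t ∈ B, t.carrier) (by
    have hmem : ∀ s ∈ B, ∀ t ∈ B, ∀ x ∈ s.carrier, x ≤ t.mx → x ∈ t.carrier := by
      intro s hs t ht x hx hxt
      rcases hB s hs t ht with h1 | h1
      · exact h1.mem hx
      · exact (h1 x hxt).1 hx
    constructor
    · intro a
      obtain ⟨a', ha'⟩ := exists_bound (countable_singleton a)
      obtain ⟨t, ht, hat⟩ := h a'
      exact ⟨t.mx, mem_biUnion ht t.mx_mem, (ha' a rfl).trans_le hat⟩
    · intro f δ hf hm
      obtain ⟨t, ht, hδt⟩ := h δ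
      refine mem_biUnion ht (t.closed f δ hf fun n => ?_)
      obtain ⟨s, hs, hn⟩ := mem_iUnion₂.1 (hm n)
      exact hmem s hs t ht _ hn ((hf.lt n).le.trans hδt))
  obtain ⟨t, -, ht⟩ := mem_iUnion₂.1 hx
  exact hxS (t.sub ht)

/-! ### The space -/

/-- The lower sets which separate two end-extensions of `t`. -/
def V (t : T S) : Set (LowerSet (T S)) := {A | ∃ v v', Ext t v ∧ Ext t v' ∧ v ∈ A ∧ v' ∉ A}

theorem V_mono {t u : T S} (h : Ext t u) : V u ⊆ V t := by
  rintro A ⟨v, v', h1, h2, h3, h4⟩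
  exact ⟨v, v', h.trans h1, h.trans h2, h3, h4⟩

theorem V_nonempty (hS : ∀ C, Club C → ∃ x ∈ C, x ∈ S) (t : T S) : (V t).Nonempty := by
  obtain ⟨b, hbS, hb⟩ := unbounded hS t.mx
  exact ⟨LowerSet.Iic t, t, t.add b hbS hb, Ext.refl t, t.ext_add b hbS hb, le_refl t,
    not_le.2 (lt_add t b hbS hb)⟩

theorem V_inter {s t : T S} {A : LowerSet (T S)} (hs : A ∈ V s) (ht : A ∈ V t) :
    Ext s t ∨ Ext t s := by
  rcases trichotomy s t with h | h | h | h
  · exact Or.inl h
  · exact Or.inr h
  · obtain ⟨v, v', h1, h2, h3, h4⟩ := hs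
    obtain ⟨w, w', k1, k2, k3, k4⟩ := ht
    exact absurd (A.lower (h v' w h2 k1).le k3) h4
  · obtain ⟨v, v', h1, h2, h3, h4⟩ := hs
    obtain ⟨w, w', k1, k2, k3, k4⟩ := ht
    exact absurd (A.lower (h v w' h1 k2).le h3) k4

theorem mem_iff_lt {A : LowerSet (T S)} {v : T S} : v ∈ A ↔ LowerSet.Iio v < A := by
  constructor
  · intro h
    refine lt_of_le_of_ne (fun x hx => A.lower (le_of_lt hx) h) ?_
    rintro rfl
    exact lt_irrefl v h
  · intro h
    by_contra hv
    refine absurd h (not_lt.2 fun x hx => ?_)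
    by_contra hx'
    exact hv (A.lower (not_lt.1 hx') hx)

theorem notMem_iff_lt {A : LowerSet (T S)} {v : T S} : v ∉ A ↔ A < LowerSet.Iic v := by
  constructor
  · intro h
    refine lt_of_le_of_ne (fun x hx => ?_) ?_
    · by_contra hx'
      exact h (A.lower (le_of_lt (not_le.1 hx')) hx)
    · rintro rfl
      exact h (le_refl v)
  · intro h hv
    exact absurd h (not_lt.2 fun x hx => A.lower hx hv)

theorem exists_mem_of_lt {A B : LowerSet (T S)} (h : A < B) : ∃ v ∈ B, v ∉ A := by
  by_contra! h'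
  exact absurd h (not_lt.2 h')

section Top

variable [TopologicalSpace (LowerSet (T S))] [OrderTopology (LowerSet (T S))]

theorem isOpen_V (t : T S) : IsOpen (V t) := by
  have : V t = ⋃ v : {v : T S // Ext t v}, ⋃ v' : {v : T S // Ext t v},
      Ioo (LowerSet.Iio v.1) (LowerSet.Iic v'.1) := by
    ext A
    simp only [V, mem_ofPred_eq, mem_iUnion, mem_Ioo, ← mem_iff_lt, ← notMem_iff_lt]
    constructor
    · rintro ⟨v, v', h1, h2, h3, h4⟩
      exact ⟨⟨v, h1⟩, ⟨v', h2⟩, h3, h4⟩
    · rintro ⟨⟨v, h1⟩, ⟨v', h2⟩, h3, h4⟩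
      exact ⟨v, v', h1, h2, h3, h4⟩
  rw [this]
  exact isOpen_iUnion fun v => isOpen_iUnion fun v' => isOpen_Ioo

theorem exists_V_subset (hS : ∀ C, Club C → ∃ x ∈ C, x ∈ S) {U : Set (LowerSet (T S))}
    (hU : IsOpen U) (hne : U.Nonempty) : ∃ t, V t ⊆ U := by
  obtain ⟨A, hA⟩ := hne
  have hnhds : U ∈ nhds A := hU.mem_nhds hA
  have t₁ : T S := by
    have := (V_nonempty hS (single (unbounded hS (Classical.arbitrary I)).choose
      (unbounded hS (Classical.arbitrary I)).choose_spec.1))
    exact single (unbounded hS (Classical.arbitrary I)).choose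
      (unbounded hS (Classical.arbitrary I)).choose_spec.1
  by_cases h1 : ∃ B, B < A
  · by_cases h2 : ∃ C, A < C
    · obtain ⟨B, C, hBC, hsub⟩ := (mem_nhds_iff_exists_Ioo_subset' h1 h2).1 hnhds
      obtain ⟨v, hv, hv'⟩ := exists_mem_of_lt hBC.1
      obtain ⟨w, hw, hw'⟩ := exists_mem_of_lt hBC.2
      have hvw : v < w := by
        by_contra h
        exact hw' (A.lower (not_lt.1 h) hv)
      obtain ⟨u, hu⟩ := exists_between hS hvw
      refine ⟨u, fun E hE => hsub ?_⟩
      obtain ⟨x, x', k1, k2, k3, k4⟩ := hE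
      constructor
      · refine lt_of_le_of_ne (fun y hy => ?_) ?_
        · by_contra hyE
          have : x < y := by
            by_contra h
            exact hyE (E.lower (not_lt.1 h) k3)
          exact hv' (B.lower ((hu x k1).1.trans this).le hy)
        · rintro rfl
          exact hv' (B.lower (hu x k1).1.le k3)
      · refine lt_of_le_of_ne (fun y hy => ?_) ?_
        · have : y < x' := by
            by_contra h
            exact k4 (E.lower (not_lt.1 h) hy)
          exact C.lower (this.trans (hu x' k2).2).le hw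
        · rintro rfl
          exact k4 (E.lower (hu x' k2).2.le hw)
    · -- `A` is the top element
      push Not at h2
      obtain ⟨B, hB, hsub⟩ := exists_Ioc_subset_of_mem_nhds hnhds h1
      obtain ⟨v, hv, hv'⟩ := exists_mem_of_lt hB
      obtain ⟨u, hu⟩ := exists_above hS v
      refine ⟨u, fun E hE => hsub ⟨?_, h2 E⟩⟩
      obtain ⟨x, x', k1, k2, k3, k4⟩ := hE
      refine lt_of_le_of_ne (fun y hy => ?_) ?_
      · by_contra hyE
        have : x < y := by
          by_contra h
          exact hyE (E.lower (not_lt.1 h) k3)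
        exact hv' (B.lower ((hu x k1).trans this).le hy)
      · rintro rfl
        exact hv' (B.lower (hu x k1).le k3)
  · push Not at h1
    have h2 : ∃ C, A < C := by
      by_contra h2
      push Not at h2
      have e1 : (⊥ : LowerSet (T S)) = A := le_antisymm bot_le (h1 ⊥)
      have e2 : (⊤ : LowerSet (T S)) = A := le_antisymm (h2 ⊤) le_top
      have : t₁ ∈ (⊤ : LowerSet (T S)) := LowerSet.mem_top
      rw [e2, ← e1] at this
      exact LowerSet.notMem_bot this
    obtain ⟨C, hC, hsub⟩ := exists_Ico_subset_of_mem_nhds hnhds h2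
    obtain ⟨w, hw, hw'⟩ := exists_mem_of_lt hC
    obtain ⟨u, hu⟩ := exists_below hS w
    refine ⟨u, fun E hE => hsub ⟨h1 E, ?_⟩⟩
    obtain ⟨x, x', k1, k2, k3, k4⟩ := hE
    refine lt_of_le_of_ne (fun y hy => ?_) ?_
    · have : y < x' := by
        by_contra h
        exact k4 (E.lower (not_lt.1 h) hy)
      exact C.lower (this.trans (hu x' k2)).le hw
    · rintro rfl
      exact k4 (E.lower (hu x' k2).le hw)

theorem not_blumberg (hS : ∀ C, Club C → ∃ x ∈ C, x ∈ S) (hS' : ∀ C, Club C → ∃ x ∈ C, x ∉ S) :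
    ¬ Blumberg (LowerSet (T S)) := by
  intro hBl
  have hr : Nonempty (I ↪ ℝ) := by
    rw [← Cardinal.le_def]
    simp only [Cardinal.mk_toType, Cardinal.card_ord, Cardinal.mk_real]
    exact Cardinal.aleph_one_le_continuum
  obtain ⟨r⟩ := hr
  have hrank : ∀ A : LowerSet (T S), ∃ a : I, ∀ t : T S, A ∈ V t → t.mx < a := fun A =>
    bounded hS' {t | A ∈ V t} fun s hs t ht => V_inter hs ht
  choose rank hrank using hrank
  obtain ⟨D, hD, hf⟩ := hBl fun A => r (rank A)
  rw [continuousOn_iff'] at hf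
  have hC : ∀ q : ℚ, ∃ C : Set (LowerSet (T S)), IsOpen C ∧
      ∀ A ∈ D, (r (rank A) < q ↔ A ∈ C) := by
    intro q
    obtain ⟨C, hC, h⟩ := hf (Iio (q : ℝ)) isOpen_Iio
    refine ⟨C, hC, fun A hA => ?_⟩
    constructor
    · intro h'
      have : A ∈ C ∩ D := by
        rw [← h]
        exact ⟨h', hA⟩
      exact this.1
    · intro h'
      have : A ∈ (fun A => r (rank A)) ⁻¹' Iio (q : ℝ) ∩ D := by
        rw [h]
        exact ⟨h', hA⟩
      exact this.1
  choose C hCo hC using hC
  obtain ⟨e, he⟩ := exists_surjective_nat ℚ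
  have t₁ : T S := single (unbounded hS (Classical.arbitrary I)).choose
      (unbounded hS (Classical.arbitrary I)).choose_spec.1
  obtain ⟨u, -, hu⟩ := distributive hS (fun n t => V t ⊆ C (e n) ∨ V t ∩ C (e n) = ∅)
    (by
      intro n t u h htu
      rcases h with h | h
      · exact Or.inl ((V_mono htu).trans h)
      · refine Or.inr (subset_empty_iff.1 ?_)
        rw [← h]
        exact inter_subset_inter_left _ (V_mono htu))
    (by
      intro n t
      by_cases h : V t ∩ C (e n) = ∅
      · exact ⟨t, Ext.refl t, Or.inr h⟩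
      · obtain ⟨s, hs⟩ := exists_V_subset hS ((isOpen_V t).inter (hCo (e n)))
          (nonempty_iff_ne_empty.2 h)
        obtain ⟨A, hA⟩ := V_nonempty hS s
        rcases V_inter hA (hs hA).1 with h1 | h1
        · exact ⟨t, Ext.refl t, Or.inl ((V_mono h1).trans (hs.trans inter_subset_right))⟩
        · exact ⟨s, h1, Or.inl (hs.trans inter_subset_right)⟩) t₁
  have hconst : ∀ A ∈ D ∩ V u, ∀ B ∈ D ∩ V u, ¬ r (rank A) < r (rank B) := by
    intro A hA B hB hlt
    obtain ⟨q, hq1, hq2⟩ := exists_rat_btwn hlt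
    obtain ⟨n, rfl⟩ := he q
    have h1 : A ∈ C (e n) := (hC (e n) A hA.1).1 hq1
    have h2 : B ∉ C (e n) := fun h => absurd ((hC (e n) B hB.1).2 h) (not_lt.2 hq2.le)
    rcases hu n with h | h
    · exact h2 (h hB.2)
    · have : A ∈ V u ∩ C (e n) := ⟨hA.2, h1⟩
      rw [h] at this
      exact this
  obtain ⟨A, hAV, hAD⟩ := hD.inter_open_nonempty _ (isOpen_V u) (V_nonempty hS u)
  obtain ⟨b, hbS, hb⟩ := unbounded hS (max (rank A) u.mx)
  have hb1 : u.mx < b := (le_max_right _ _).trans_lt hb
  have hb2 : rank A < b := (le_max_left _ _).trans_lt hb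
  obtain ⟨B, hBV, hBD⟩ := hD.inter_open_nonempty _ (isOpen_V (u.add b hbS hb1))
    (V_nonempty hS _)
  have hBV' : B ∈ V u := V_mono (u.ext_add b hbS hb1) hBV
  have h1 : b < rank B := hrank B _ hBV
  have h2 : rank A = rank B := by
    refine r.injective (le_antisymm ?_ ?_)
    · exact not_lt.1 (hconst B ⟨hBD, hBV'⟩ A ⟨hAD, hAV⟩)
    · exact not_lt.1 (hconst A ⟨hAD, hAV⟩ B ⟨hBD, hBV'⟩)
  rw [← h2] at h1
  exact lt_irrefl _ (h1.trans hb2)

end Top

/-- There is a compact linearly ordered topological space without the Blumberg property. -/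
theorem result : ∃ (K : Type) (_ : LinearOrder K) (_ : TopologicalSpace K),
    OrderTopology K ∧ CompactSpace K ∧ ¬ Blumberg K := by
  obtain ⟨S, hS, hS'⟩ := exists_bistationary
  let _ : TopologicalSpace (LowerSet (T S)) := Preorder.topology _
  have : OrderTopology (LowerSet (T S)) := ⟨rfl⟩
  exact ⟨LowerSet (T S), inferInstance, inferInstance, inferInstance, inferInstance,
    not_blumberg hS hS'⟩

end Pool.Agent.Results.MP_184855_gt.CompactLOTS
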